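import Pool.Agent.KTK.Stmts2

/-!
# KTK part 2, ENM: enumeration of the best denominators
-/

set_option autoImplicit false

namespace Pool.Agent.KTK.H64

theorem enm : EnmStmt := by
  classical
  intro P f h
  have hinf : {q : ℕ | P q}.Infinite := by
    intro hfin
    apply h
    refine summable_of_ne_finset_zero (s := hfin.toFinset) ?_
    intro q hq
    refine Set.indicator_of_notMem ?_ f
    intro hq'
    exact hq (hfin.mem_toFinset.2 hq')
  have hmem : ∀ j, P (Nat.nth P j) := fun j => Nat.nth_mem_of_infinite hinf j
  have hmono : StrictMono (Nat.nth P) := Nat.nth_strictMono hinf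
  refine ⟨Nat.nth P, hmono, hmem, ?_⟩
  intro hs
  apply h
  refine (Function.Injective.summable_iff hmono.injective ?_).1 ?_
  · intro q hq
    refine Set.indicator_of_notMem ?_ f
    intro hq'
    exact hq ⟨Nat.count P q, Nat.nth_count hq'⟩
  · refine hs.congr ?_
    intro j
    have h1 : Nat.nth P j ∈ {q : ℕ | P q} := hmem j
    exact (Set.indicator_of_mem h1 f).symm

end Pool.Agent.KTK.H64
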